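import Pool.Agent.Helper98.Lang.Defs

/-!
# Selberg's upper bound sieve (packet P3)
-/

set_option autoImplicit false

open Finset

namespace Pool.Agent.Helper31.Lang

open Pool.Agent.Helper98.Lang

/-- Moebius function, real valued -/
noncomputable def mu (n : ℕ) : ℝ := (ArithmeticFunction.moebius n : ℝ)

/-- totient, real valued -/
noncomputable def ph (n : ℕ) : ℝ := (Nat.totient n : ℝ)

lemma mu_one : mu 1 = 1 := by simp [mu]

lemma mu_mul {a b : ℕ} (h : Nat.Coprime a b) : mu (a * b) = mu a * mu b := by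
  unfold mu
  rw [ArithmeticFunction.isMultiplicative_moebius.map_mul_of_coprime h]
  push_cast
  rfl

lemma mu_sq {a : ℕ} (h : Squarefree a) : mu a ^ 2 = 1 := by
  unfold mu
  exact_mod_cast ArithmeticFunction.moebius_sq_eq_one_of_squarefree h

lemma ph_pos {a : ℕ} (h : 0 < a) : 0 < ph a := by
  unfold ph
  exact_mod_cast Nat.totient_pos.2 h

lemma ph_mul {a b : ℕ} (h : Nat.Coprime a b) : ph (a * b) = ph a * ph b := by
  unfold ph
  rw [Nat.totient_mul h]
  push_cast
  rfl

lemma sum_mu (t : ℕ) : ∑ e ∈ t.divisors, mu e = if t = 1 then 1 else 0 := by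
  have h := congrArg (fun f : ArithmeticFunction ℤ => f t) ArithmeticFunction.moebius_mul_coe_zeta
  simp only [ArithmeticFunction.coe_mul_zeta_apply, ArithmeticFunction.one_apply] at h
  unfold mu
  rw [← Int.cast_sum, h]
  split <;> simp

lemma sum_mu2 (m l : ℕ) (hm : Squarefree m) :
    ∑ d ∈ m.divisors.filter (fun d => l ∣ d), mu d = if m = l then mu l else 0 := by
  have hm0 : m ≠ 0 := hm.ne_zero
  by_cases hl : l ∣ m
  · obtain ⟨t, rfl⟩ := hl
    have hl0 : l ≠ 0 := by rintro rfl; simp at hm0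
    have ht0 : t ≠ 0 := by rintro rfl; simp at hm0
    have himg : (l * t).divisors.filter (fun d => l ∣ d) = t.divisors.image (fun e => l * e) := by
      ext d
      simp only [Finset.mem_filter, Nat.mem_divisors, Finset.mem_image]
      constructor
      · rintro ⟨⟨h1, _⟩, ⟨e, rfl⟩⟩
        exact ⟨e, ⟨Nat.dvd_of_mul_dvd_mul_left (Nat.pos_of_ne_zero hl0) h1, ht0⟩, rfl⟩
      · rintro ⟨e, ⟨he, _⟩, rfl⟩
        exact ⟨⟨Nat.mul_dvd_mul_left l he, hm0⟩, Dvd.intro e rfl⟩
    rw [himg, Finset.sum_image (fun a _ b _ h => Nat.eq_of_mul_eq_mul_left (Nat.pos_of_ne_zero hl0) h)]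
    have h1 : ∀ e ∈ t.divisors, mu (l * e) = mu l * mu e := by
      intro e he
      apply mu_mul
      exact Nat.coprime_of_squarefree_mul
        (Squarefree.squarefree_of_dvd (Nat.mul_dvd_mul_left l (Nat.dvd_of_mem_divisors he)) hm)
    rw [Finset.sum_congr rfl h1, ← Finset.mul_sum, sum_mu t]
    by_cases ht : t = 1
    · simp [ht]
    · rw [if_neg ht, if_neg, mul_zero]
      intro h
      apply ht
      exact Nat.eq_of_mul_eq_mul_left (Nat.pos_of_ne_zero hl0) (by linarith)
  · rw [Finset.filter_false_of_mem, Finset.sum_empty, if_neg]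
    · rintro rfl
      exact hl dvd_rfl
    · intro d hd hld
      exact hl (hld.trans (Nat.dvd_of_mem_divisors hd))

/-- the squarefree integers `≤ w` -/
def D (w : ℕ) : Finset ℕ := (Icc 1 w).filter Squarefree

lemma mem_D {w d : ℕ} : d ∈ D w ↔ (1 ≤ d ∧ d ≤ w) ∧ Squarefree d := by
  unfold D
  rw [Finset.mem_filter, Finset.mem_Icc]

/-- the sum of `1 / φ` -/
noncomputable def Gs (w : ℕ) : ℝ := ∑ k ∈ D w, 1 / ph k

/-- the Selberg weights -/
noncomputable def lam (w d : ℕ) : ℝ :=
  mu d * d * (∑ m ∈ (D w).filter (fun m => d ∣ m), 1 / ph m) / Gs w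

/-! ### the lower bound for `Gs` -/

lemma smooth_sum (S : Finset ℕ) (hS : ∀ p ∈ S, p.Prime) : ∀ N : ℕ,
    ∑ m ∈ (Icc 1 N).filter (fun m => m.primeFactors ⊆ S), 1 / (m : ℝ)
      ≤ ∏ p ∈ S, ((p : ℝ) / (p - 1)) := by
  induction S using Finset.induction_on with
  | empty =>
    intro N
    rw [Finset.prod_empty]
    calc _ ≤ ∑ m ∈ ({1} : Finset ℕ), 1 / (m : ℝ) := by
          apply Finset.sum_le_sum_of_subset_of_nonneg
          · intro m hm
            rw [Finset.mem_filter, Finset.mem_Icc] at hm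
            have h1 : m.primeFactors = ∅ := Finset.subset_empty.1 hm.2
            rw [Nat.primeFactors_eq_empty] at h1
            rw [Finset.mem_singleton]
            omega
          · intro m _ _
            positivity
      _ = 1 := by simp
  | insert p S hpS ih =>
    intro N
    have hp : p.Prime := hS p (Finset.mem_insert_self _ _)
    have ih' := ih (fun q hq => hS q (Finset.mem_insert_of_mem hq)) N
    have hp1 : (1 : ℝ) < p := by exact_mod_cast hp.one_lt
    set A := ∑ m ∈ (Icc 1 N).filter (fun m => m.primeFactors ⊆ insert p S), 1 / (m : ℝ) with hA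
    have h1 : A ≤ ∑ m ∈ (Icc 1 N).filter (fun m => m.primeFactors ⊆ S), 1 / (m : ℝ)
        + 1 / (p : ℝ) * A := by
      rw [hA]
      have h2 : (Icc 1 N).filter (fun m => m.primeFactors ⊆ insert p S)
          ⊆ (Icc 1 N).filter (fun m => m.primeFactors ⊆ S) ∪
            ((Icc 1 N).filter (fun m => m.primeFactors ⊆ insert p S)).image (fun m => p * m) := by
        intro m hm
        rw [Finset.mem_filter, Finset.mem_Icc] at hm
        rw [Finset.mem_union, Finset.mem_filter, Finset.mem_image, Finset.mem_Icc]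
        by_cases hpm : p ∣ m
        · right
          obtain ⟨k, rfl⟩ := hpm
          have hk0 : k ≠ 0 := by rintro rfl; simp at hm
          refine ⟨k, ?_, rfl⟩
          rw [Finset.mem_filter, Finset.mem_Icc]
          refine ⟨⟨Nat.pos_of_ne_zero hk0, ?_⟩, ?_⟩
          · calc k ≤ p * k := Nat.le_mul_of_pos_left k hp.pos
              _ ≤ N := hm.1.2
          · refine subset_trans ?_ hm.2
            exact Nat.primeFactors_mono (Dvd.intro_left p rfl) (Nat.mul_ne_zero hp.ne_zero hk0)
        · left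
          refine ⟨hm.1, ?_⟩
          intro q hq
          have h3 := hm.2 hq
          rw [Finset.mem_insert] at h3
          rcases h3 with rfl | h3
          · exact absurd (Nat.dvd_of_mem_primeFactors hq) hpm
          · exact h3
      calc _ ≤ ∑ m ∈ (Icc 1 N).filter (fun m => m.primeFactors ⊆ S) ∪
            ((Icc 1 N).filter (fun m => m.primeFactors ⊆ insert p S)).image (fun m => p * m),
              1 / (m : ℝ) :=
            Finset.sum_le_sum_of_subset_of_nonneg h2 (fun m _ _ => by positivity)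
        _ ≤ ∑ m ∈ (Icc 1 N).filter (fun m => m.primeFactors ⊆ S), 1 / (m : ℝ) +
            ∑ m ∈ ((Icc 1 N).filter (fun m => m.primeFactors ⊆ insert p S)).image (fun m => p * m),
              1 / (m : ℝ) := by
            rw [← Finset.sum_union_inter]
            have : 0 ≤ ∑ m ∈ (Icc 1 N).filter (fun m => m.primeFactors ⊆ S) ∩
              ((Icc 1 N).filter (fun m => m.primeFactors ⊆ insert p S)).image (fun m => p * m),
              1 / (m : ℝ) := Finset.sum_nonneg (fun m _ => by positivity)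
            linarith
        _ = _ := by
            congr 1
            rw [Finset.sum_image (fun a _ b _ h => Nat.eq_of_mul_eq_mul_left hp.pos h),
              Finset.mul_sum]
            apply Finset.sum_congr rfl
            intro m _
            push_cast
            rw [one_div, one_div, one_div, mul_inv]
    rw [Finset.prod_insert hpS]
    have h4 : A * (1 - 1 / (p : ℝ)) ≤ ∏ q ∈ S, ((q : ℝ) / (q - 1)) := by
      calc A * (1 - 1 / (p : ℝ)) = A - 1 / (p : ℝ) * A := by ring
        _ ≤ _ := by linarith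
    have h5 : (0 : ℝ) < 1 - 1 / (p : ℝ) := by
      rw [sub_pos, div_lt_one (by linarith)]
      exact hp1
    have h6 : (p : ℝ) / (p - 1) = (1 - 1 / (p : ℝ))⁻¹ := by
      have : (p : ℝ) - 1 ≠ 0 := by linarith
      have : (p : ℝ) ≠ 0 := by linarith
      field_simp
    rw [h6, mul_comm, ← div_eq_mul_inv, le_div_iff₀ h5]
    exact h4

lemma inv_ph (k : ℕ) (_hk : 0 < k) :
    1 / ph k = 1 / (k : ℝ) * ∏ p ∈ k.primeFactors, ((p : ℝ) / (p - 1)) := by
  have h1 : (ph k : ℝ) = k * ∏ p ∈ k.primeFactors, (1 - (p : ℝ)⁻¹) := by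
    have := congrArg (fun x : ℚ => (x : ℝ)) (Nat.totient_eq_mul_prod_factors k)
    unfold ph
    push_cast at this
    exact this
  rw [h1, one_div, mul_inv, one_div, ← Finset.prod_inv_distrib]
  congr 1
  apply Finset.prod_congr rfl
  intro p hp
  have hp1 : (1 : ℝ) < p := by exact_mod_cast (Nat.prime_of_mem_primeFactors hp).one_lt
  have : (p : ℝ) - 1 ≠ 0 := by linarith
  have : (p : ℝ) ≠ 0 := by linarith
  field_simp

/-- the squarefree kernel -/
def rd (n : ℕ) : ℕ := ∏ p ∈ n.primeFactors, p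

lemma log_le_Gs (w : ℕ) (hw : 1 ≤ w) : Real.log w ≤ Gs w := by
  have h0 : Real.log w ≤ ∑ n ∈ Icc 1 w, 1 / (n : ℝ) := by
    have h1 := log_add_one_le_harmonic w
    have h2 : ((harmonic w : ℚ) : ℝ) = ∑ n ∈ Icc 1 w, 1 / (n : ℝ) := by
      rw [harmonic_eq_sum_Icc]
      push_cast
      apply Finset.sum_congr rfl
      intro n _
      rw [one_div]
    rw [← h2]
    refine le_trans (Real.log_le_log (by exact_mod_cast hw) ?_) h1
    push_cast
    linarith
  refine h0.trans ?_
  unfold Gs
  have hmaps : ∀ n ∈ Icc 1 w, rd n ∈ D w := by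
    intro n hn
    rw [Finset.mem_Icc] at hn
    rw [mem_D]
    have hdvd : rd n ∣ n := Nat.prod_primeFactors_dvd n
    refine ⟨⟨?_, (Nat.le_of_dvd (by omega) hdvd).trans hn.2⟩, ?_⟩
    · exact Finset.prod_pos (fun p hp => (Nat.prime_of_mem_primeFactors hp).pos)
    · unfold rd
      rw [Nat.squarefree_iff_prime_squarefree]
      intro q hq hqq
      have h1 : q ∈ n.primeFactors := by
        have h2 : q ∣ ∏ p ∈ n.primeFactors, p := (Dvd.intro _ rfl).trans hqq
        exact Nat.mem_primeFactors.2 ⟨hq, h2.trans hdvd, by omega⟩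
      rw [← Finset.mul_prod_erase _ _ h1] at hqq
      have h2 : q ∣ ∏ p ∈ n.primeFactors.erase q, p :=
        Nat.dvd_of_mul_dvd_mul_left hq.pos hqq
      rw [Prime.dvd_finsetProd_iff hq.prime] at h2
      obtain ⟨p, hp, hqp⟩ := h2
      rw [Finset.mem_erase] at hp
      exact hp.1 ((Nat.prime_dvd_prime_iff_eq hq (Nat.prime_of_mem_primeFactors hp.2)).1 hqp).symm
  rw [← Finset.sum_fiberwise_of_maps_to hmaps]
  apply Finset.sum_le_sum
  intro k hk
  rw [mem_D] at hk
  rw [inv_ph k hk.1.1]
  have h3 := smooth_sum k.primeFactors (fun p hp => Nat.prime_of_mem_primeFactors hp) w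
  have hk0 : (0 : ℝ) < k := by exact_mod_cast hk.1.1
  calc ∑ n ∈ (Icc 1 w).filter (fun n => rd n = k), 1 / (n : ℝ)
      ≤ ∑ n ∈ ((Icc 1 w).filter (fun m => m.primeFactors ⊆ k.primeFactors)).image
          (fun m => k * m), 1 / (n : ℝ) := by
        apply Finset.sum_le_sum_of_subset_of_nonneg
        · intro n hn
          rw [Finset.mem_filter, Finset.mem_Icc] at hn
          have hdvd : rd n ∣ n := Nat.prod_primeFactors_dvd n
          rw [hn.2] at hdvd
          obtain ⟨m, rfl⟩ := hdvd
          have hm0 : m ≠ 0 := by rintro rfl; simp at hn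
          rw [Finset.mem_image]
          refine ⟨m, ?_, rfl⟩
          rw [Finset.mem_filter, Finset.mem_Icc]
          refine ⟨⟨Nat.pos_of_ne_zero hm0, ?_⟩, ?_⟩
          · calc m ≤ k * m := Nat.le_mul_of_pos_left m hk.1.1
              _ ≤ w := hn.1.2
          · intro q hq
            rw [Nat.mem_primeFactors] at hq ⊢
            refine ⟨hq.1, ?_, by omega⟩
            rw [← hn.2]
            unfold rd
            apply Finset.dvd_prod_of_mem (fun p => p)
            rw [Nat.mem_primeFactors]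
            exact ⟨hq.1, hq.2.1.trans (Dvd.intro_left k rfl), Nat.mul_ne_zero (by omega) hm0⟩
        · intro n _ _
          positivity
    _ = 1 / (k : ℝ) * ∑ m ∈ (Icc 1 w).filter (fun m => m.primeFactors ⊆ k.primeFactors),
          1 / (m : ℝ) := by
        rw [Finset.sum_image (fun a _ b _ h => Nat.eq_of_mul_eq_mul_left hk.1.1 h), Finset.mul_sum]
        apply Finset.sum_congr rfl
        intro m _
        push_cast
        rw [one_div, one_div, one_div, mul_inv]
    _ ≤ _ := by
        apply mul_le_mul_of_nonneg_left h3 (by positivity)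

lemma Gs_pos (w : ℕ) (hw : 2 ≤ w) : 0 < Gs w := by
  have h1 := log_le_Gs w (by omega)
  have h2 : 0 < Real.log w := Real.log_pos (by exact_mod_cast hw)
  linarith

/-! ### properties of the weights -/

lemma lam_one (w : ℕ) (hw : 2 ≤ w) : lam w 1 = 1 := by
  have h := Gs_pos w hw
  unfold lam
  rw [Finset.filter_true_of_mem (fun m _ => one_dvd m), mu_one]
  change 1 * ((1 : ℕ) : ℝ) * Gs w / Gs w = 1
  rw [Nat.cast_one, one_mul, one_mul, div_self h.ne']

lemma lam_inv (w l : ℕ) (hw : 2 ≤ w) (hl : l ∈ D w) :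
    ∑ d ∈ (D w).filter (fun d => l ∣ d), lam w d / d = mu l / (ph l * Gs w) := by
  have hG := Gs_pos w hw
  have h1 : ∀ d ∈ (D w).filter (fun d => l ∣ d), lam w d / d
      = (∑ m ∈ (D w).filter (fun m => d ∣ m), mu d * (1 / ph m)) / Gs w := by
    intro d hd
    rw [Finset.mem_filter, mem_D] at hd
    have hd0 : (d : ℝ) ≠ 0 := by
      have : d ≠ 0 := by omega
      exact_mod_cast this
    unfold lam
    rw [← Finset.mul_sum]
    field_simp
  rw [Finset.sum_congr rfl h1, ← Finset.sum_div]
  have h2 : ∑ d ∈ (D w).filter (fun d => l ∣ d),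
      ∑ m ∈ (D w).filter (fun m => d ∣ m), mu d * (1 / ph m)
      = ∑ m ∈ D w, (1 / ph m) * ∑ d ∈ m.divisors.filter (fun d => l ∣ d), mu d := by
    have h3 : ∀ d ∈ (D w).filter (fun d => l ∣ d),
        ∑ m ∈ (D w).filter (fun m => d ∣ m), mu d * (1 / ph m)
        = ∑ m ∈ D w, if d ∣ m then mu d * (1 / ph m) else 0 := by
      intro d _
      rw [Finset.sum_filter]
    rw [Finset.sum_congr rfl h3, Finset.sum_comm]
    apply Finset.sum_congr rfl
    intro m hm
    rw [mem_D] at hm
    rw [Finset.mul_sum, ← Finset.sum_filter]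
    have h4 : ((D w).filter (fun d => l ∣ d)).filter (fun d => d ∣ m)
        = m.divisors.filter (fun d => l ∣ d) := by
      ext d
      rw [Finset.mem_filter, Finset.mem_filter, Finset.mem_filter, mem_D, Nat.mem_divisors]
      constructor
      · rintro ⟨⟨_, h5⟩, h6⟩
        exact ⟨⟨h6, by omega⟩, h5⟩
      · rintro ⟨⟨h5, h6⟩, h7⟩
        refine ⟨⟨⟨⟨?_, ?_⟩, ?_⟩, h7⟩, h5⟩
        · exact Nat.pos_of_ne_zero (fun h => by subst h; simp at h5; omega)
        · exact (Nat.le_of_dvd (by omega) h5).trans hm.1.2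
        · exact Squarefree.squarefree_of_dvd h5 hm.2
    rw [h4]
    apply Finset.sum_congr rfl
    intro d _
    ring
  rw [h2]
  have h5 : ∀ m ∈ D w, (1 / ph m) * ∑ d ∈ m.divisors.filter (fun d => l ∣ d), mu d
      = if m = l then mu l / ph l else 0 := by
    intro m hm
    rw [mem_D] at hm
    rw [sum_mu2 m l hm.2]
    by_cases h : m = l
    · subst h
      rw [if_pos rfl, if_pos rfl]
      ring
    · rw [if_neg h, if_neg h, mul_zero]
  rw [Finset.sum_congr rfl h5, Finset.sum_ite_eq' (D w) l, if_pos hl, div_div]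

lemma quad (w : ℕ) (hw : 2 ≤ w) :
    ∑ d ∈ D w, ∑ e ∈ D w, lam w d * lam w e / (Nat.lcm d e : ℝ) = 1 / Gs w := by
  have hG := Gs_pos w hw
  have h1 : ∀ d ∈ D w, ∀ e ∈ D w, lam w d * lam w e / (Nat.lcm d e : ℝ)
      = ∑ l ∈ D w, (if l ∣ d then (if l ∣ e then ph l * (lam w d / d) * (lam w e / e) else 0)
          else 0) := by
    intro d hd e he
    rw [mem_D] at hd he
    have hd0 : (d : ℝ) ≠ 0 := by
      have : d ≠ 0 := by omega
      exact_mod_cast this
    have he0 : (e : ℝ) ≠ 0 := by
      have : e ≠ 0 := by omega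
      exact_mod_cast this
    have hg0 : (Nat.gcd d e : ℝ) ≠ 0 := by
      have : Nat.gcd d e ≠ 0 := Nat.gcd_ne_zero_left (by omega)
      exact_mod_cast this
    have hl0 : (Nat.lcm d e : ℝ) ≠ 0 := by
      have : Nat.lcm d e ≠ 0 := Nat.lcm_ne_zero (by omega) (by omega)
      exact_mod_cast this
    have h2 : (Nat.gcd d e : ℝ) * (Nat.lcm d e : ℝ) = d * e := by
      exact_mod_cast Nat.gcd_mul_lcm d e
    have h3 : (Nat.gcd d e : ℝ) = ∑ l ∈ D w, if l ∣ d then (if l ∣ e then ph l else 0) else 0 := by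
      have h4 : (Nat.gcd d e : ℝ) = ∑ l ∈ (Nat.gcd d e).divisors, ph l := by
        unfold ph
        exact_mod_cast (Nat.sum_totient (Nat.gcd d e)).symm
      rw [h4]
      have h5 : (Nat.gcd d e).divisors = ((D w).filter (fun l => l ∣ d)).filter (fun l => l ∣ e) := by
        ext l
        rw [Finset.mem_filter, Finset.mem_filter, mem_D, Nat.mem_divisors, Nat.dvd_gcd_iff]
        constructor
        · rintro ⟨⟨h6, h7⟩, h8⟩
          refine ⟨⟨⟨⟨?_, ?_⟩, ?_⟩, h6⟩, h7⟩
          · exact Nat.pos_of_ne_zero (fun h => by subst h; simp at h6; omega)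
          · exact (Nat.le_of_dvd (by omega) h6).trans hd.1.2
          · exact Squarefree.squarefree_of_dvd h6 hd.2
        · rintro ⟨⟨_, h6⟩, h7⟩
          exact ⟨⟨h6, h7⟩, Nat.gcd_ne_zero_left (by omega)⟩
      rw [h5, Finset.sum_filter, Finset.sum_filter]
    have h6 : lam w d * lam w e / (Nat.lcm d e : ℝ)
        = (Nat.gcd d e : ℝ) * ((lam w d / d) * (lam w e / e)) := by
      field_simp
      linear_combination (-(lam w d * lam w e)) * h2
    rw [h6, h3, Finset.sum_mul]
    apply Finset.sum_congr rfl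
    intro l _
    by_cases ha : l ∣ d
    · by_cases hb : l ∣ e
      · simp only [if_pos ha, if_pos hb]
        ring
      · simp only [if_pos ha, if_neg hb]
        ring
    · simp only [if_neg ha]
      ring
  have h7 : ∑ d ∈ D w, ∑ e ∈ D w, lam w d * lam w e / (Nat.lcm d e : ℝ)
      = ∑ l ∈ D w, ph l * (∑ d ∈ (D w).filter (fun d => l ∣ d), lam w d / d) ^ 2 := by
    rw [Finset.sum_congr rfl (fun d hd => Finset.sum_congr rfl (fun e he => h1 d hd e he))]
    rw [Finset.sum_congr rfl (fun d _ => Finset.sum_comm), Finset.sum_comm]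
    apply Finset.sum_congr rfl
    intro l _
    rw [pow_two, Finset.sum_mul_sum, Finset.mul_sum, Finset.sum_filter]
    apply Finset.sum_congr rfl
    intro d _
    by_cases ha : l ∣ d
    · simp only [if_pos ha]
      rw [Finset.mul_sum, Finset.sum_filter]
      apply Finset.sum_congr rfl
      intro e _
      by_cases hb : l ∣ e
      · simp only [if_pos hb]
        ring
      · simp only [if_neg hb]
    · simp only [if_neg ha]
      exact Finset.sum_const_zero
  rw [h7]
  have h8 : ∀ l ∈ D w, ph l * (∑ d ∈ (D w).filter (fun d => l ∣ d), lam w d / d) ^ 2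
      = 1 / ph l / Gs w ^ 2 := by
    intro l hl
    rw [lam_inv w l hw hl]
    rw [mem_D] at hl
    have hp := ph_pos hl.1.1
    rw [div_pow, mu_sq hl.2]
    field_simp
  rw [Finset.sum_congr rfl h8, ← Finset.sum_div]
  change Gs w / Gs w ^ 2 = 1 / Gs w
  field_simp

lemma lam_abs (w d : ℕ) (hw : 2 ≤ w) (hd : d ∈ D w) : |lam w d| ≤ 1 := by
  have hG := Gs_pos w hw
  rw [mem_D] at hd
  have hd0 : 0 < d := hd.1.1
  have hmu : |mu d| = 1 := by
    have := mu_sq hd.2
    rw [← sq_abs] at this
    nlinarith [abs_nonneg (mu d)]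
  have hnn : 0 ≤ ∑ m ∈ (D w).filter (fun m => d ∣ m), 1 / ph m :=
    Finset.sum_nonneg (fun m hm => by
      rw [Finset.mem_filter, mem_D] at hm
      have := ph_pos hm.1.1.1
      positivity)
  unfold lam
  rw [abs_div, abs_mul, abs_mul, hmu, one_mul, abs_of_pos hG, abs_of_nonneg hnn, Nat.abs_cast,
    div_le_one hG]
  have h1 : (d : ℝ) * ∑ m ∈ (D w).filter (fun m => d ∣ m), 1 / ph m
      = ∑ x ∈ ((D w).filter (fun m => d ∣ m)) ×ˢ d.divisors, 1 / ph (x.2 * (x.1 / d)) := by
    rw [Finset.sum_product, Finset.mul_sum]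
    apply Finset.sum_congr rfl
    intro m hm
    rw [Finset.mem_filter, mem_D] at hm
    obtain ⟨⟨hm1, hm2⟩, c, rfl⟩ := hm
    have hc0 : c ≠ 0 := by rintro rfl; simp at hm1
    simp only [Nat.mul_div_cancel_left c hd0]
    have h2 : (d : ℝ) = ∑ l ∈ d.divisors, ph (d / l) := by
      rw [Nat.sum_div_divisors d ph]
      unfold ph
      exact_mod_cast (Nat.sum_totient d).symm
    rw [h2, Finset.sum_mul]
    apply Finset.sum_congr rfl
    intro l hl
    obtain ⟨e, he⟩ := Nat.dvd_of_mem_divisors hl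
    have hl0 : 0 < l := Nat.pos_of_mem_divisors hl
    have he0 : 0 < e := Nat.pos_of_ne_zero (by rintro rfl; simp at he; omega)
    subst he
    rw [Nat.mul_div_cancel_left e hl0]
    have hsq := hm2
    have hcop1 : Nat.Coprime (l * e) c := Nat.coprime_of_squarefree_mul hsq
    have hcop2 : Nat.Coprime l e := Nat.coprime_of_squarefree_mul hd.2
    have hcop3 : Nat.Coprime l c := Nat.Coprime.coprime_mul_right hcop1
    rw [ph_mul hcop1, ph_mul hcop2, ph_mul hcop3]
    have p1 := ph_pos hl0
    have p2 := ph_pos he0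
    have p3 := ph_pos (Nat.pos_of_ne_zero hc0)
    field_simp
  rw [h1]
  have hinj : Set.InjOn (fun x : ℕ × ℕ => x.2 * (x.1 / d))
      (((D w).filter (fun m => d ∣ m)) ×ˢ d.divisors : Finset (ℕ × ℕ)) := by
    rintro ⟨m, l⟩ hx ⟨m', l'⟩ hx' heq
    simp only [Finset.coe_product, Set.mem_prod, Finset.mem_coe, Finset.mem_filter, mem_D] at hx hx'
    obtain ⟨⟨⟨hm1, hm2⟩, c, rfl⟩, hl⟩ := hx
    obtain ⟨⟨⟨hm1', hm2'⟩, c', rfl⟩, hl'⟩ := hx'
    simp only [Nat.mul_div_cancel_left _ hd0] at heq
    have hcop : Nat.Coprime c d := (Nat.coprime_of_squarefree_mul hm2).symm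
    have hcop' : Nat.Coprime c' d := (Nat.coprime_of_squarefree_mul hm2').symm
    have g1 : Nat.gcd (l * c) d = l := by
      rw [Nat.Coprime.gcd_mul_right_cancel l hcop]
      exact Nat.gcd_eq_left (Nat.dvd_of_mem_divisors hl)
    have g2 : Nat.gcd (l' * c') d = l' := by
      rw [Nat.Coprime.gcd_mul_right_cancel l' hcop']
      exact Nat.gcd_eq_left (Nat.dvd_of_mem_divisors hl')
    have h3 : l = l' := by rw [← g1, ← g2, heq]
    subst h3
    have h4 : c = c' := Nat.eq_of_mul_eq_mul_left (Nat.pos_of_mem_divisors hl) heq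
    subst h4
    rfl
  rw [← Finset.sum_image (f := fun k => 1 / ph k) hinj]
  unfold Gs
  apply Finset.sum_le_sum_of_subset_of_nonneg
  · intro k hk
    rw [Finset.mem_image] at hk
    obtain ⟨⟨m, l⟩, hx, rfl⟩ := hk
    rw [Finset.mem_product, Finset.mem_filter, mem_D] at hx
    obtain ⟨⟨⟨hm1, hm2⟩, c, hc⟩, hl⟩ := hx
    simp only at hc hl hm1 hm2 ⊢
    subst hc
    rw [Nat.mul_div_cancel_left c hd0, mem_D]
    have hdvd : l * c ∣ d * c := Nat.mul_dvd_mul_right (Nat.dvd_of_mem_divisors hl) c
    refine ⟨⟨?_, (Nat.le_of_dvd (by omega) hdvd).trans hm1.2⟩,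
      Squarefree.squarefree_of_dvd hdvd hm2⟩
    exact Nat.pos_of_ne_zero (fun h => by rw [h, zero_dvd_iff] at hdvd; omega)
  · intro k hk _
    rw [mem_D] at hk
    have := ph_pos hk.1.1
    positivity

open Classical in
theorem sel : GSel := by
  intro X b w g Y E hb hw hg hY hE hlev
  have hG := Gs_pos w hw
  have hlog : 0 < Real.log w := Real.log_pos (by exact_mod_cast hw)
  have hb0 : (0 : ℝ) < b := by exact_mod_cast hb
  -- step 1: majorant
  have h1 : ∑ n ∈ (Icc 1 X).filter (fun n => b ∣ n ∧ Rough w (n / b)), g n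
      ≤ ∑ n ∈ (Icc 1 X).filter (fun n => b ∣ n),
          g n * (∑ d ∈ (D w).filter (fun d => d ∣ n / b), lam w d) ^ 2 := by
    have h2 : (Icc 1 X).filter (fun n => b ∣ n ∧ Rough w (n / b))
        = ((Icc 1 X).filter (fun n => b ∣ n)).filter (fun n => Rough w (n / b)) := by
      rw [Finset.filter_filter]
    rw [h2, Finset.sum_filter]
    apply Finset.sum_le_sum
    intro n hn
    rw [Finset.mem_filter, Finset.mem_Icc] at hn
    by_cases hr : Rough w (n / b)
    · rw [if_pos hr]
      have h3 : (D w).filter (fun d => d ∣ n / b) = {1} := by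
        ext d
        rw [Finset.mem_filter, mem_D, Finset.mem_singleton]
        constructor
        · rintro ⟨⟨⟨h4, h5⟩, _⟩, h6⟩
          by_contra hne
          obtain ⟨p, hp, hpd⟩ := Nat.exists_prime_and_dvd hne
          have h7 := hr p hp (hpd.trans h6)
          have h8 := Nat.le_of_dvd (by omega) hpd
          omega
        · rintro rfl
          exact ⟨⟨⟨le_refl 1, by omega⟩, squarefree_one⟩, one_dvd _⟩
      rw [h3, Finset.sum_singleton, lam_one w hw]
      simp
    · rw [if_neg hr]
      exact mul_nonneg (hg n) (sq_nonneg _)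
  refine h1.trans ?_
  -- step 2: expand
  have h2 : ∑ n ∈ (Icc 1 X).filter (fun n => b ∣ n),
        g n * (∑ d ∈ (D w).filter (fun d => d ∣ n / b), lam w d) ^ 2
      = ∑ d ∈ D w, ∑ e ∈ D w, lam w d * lam w e *
          ∑ n ∈ (Icc 1 X).filter (fun n => b * Nat.lcm d e ∣ n), g n := by
    have h3 : ∀ n ∈ (Icc 1 X).filter (fun n => b ∣ n),
        g n * (∑ d ∈ (D w).filter (fun d => d ∣ n / b), lam w d) ^ 2
        = ∑ d ∈ D w, ∑ e ∈ D w, lam w d * lam w e *
            (if Nat.lcm d e ∣ n / b then g n else 0) := by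
      intro n _
      rw [pow_two, Finset.sum_mul_sum, Finset.mul_sum, Finset.sum_filter]
      apply Finset.sum_congr rfl
      intro d _
      by_cases ha : d ∣ n / b
      · rw [if_pos ha, Finset.mul_sum, Finset.sum_filter]
        apply Finset.sum_congr rfl
        intro e _
        by_cases hc : e ∣ n / b
        · rw [if_pos hc, if_pos (Nat.lcm_dvd ha hc)]
          ring
        · rw [if_neg hc, if_neg, mul_zero]
          intro h
          exact hc ((Nat.dvd_lcm_right d e).trans h)
      · rw [if_neg ha]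
        symm
        apply Finset.sum_eq_zero
        intro e _
        rw [if_neg, mul_zero]
        intro h
        exact ha ((Nat.dvd_lcm_left d e).trans h)
    rw [Finset.sum_congr rfl h3, Finset.sum_comm]
    apply Finset.sum_congr rfl
    intro d _
    rw [Finset.sum_comm]
    apply Finset.sum_congr rfl
    intro e _
    rw [← Finset.mul_sum, ← Finset.sum_filter, Finset.filter_filter]
    congr 1
    apply Finset.sum_congr _ (fun _ _ => rfl)
    apply Finset.filter_congr
    intro n _
    constructor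
    · rintro ⟨⟨k, rfl⟩, h4⟩
      rw [Nat.mul_div_cancel_left k hb] at h4
      exact Nat.mul_dvd_mul_left b h4
    · rintro ⟨k, rfl⟩
      refine ⟨⟨Nat.lcm d e * k, by ring⟩, ?_⟩
      rw [mul_assoc, Nat.mul_div_cancel_left _ hb]
      exact Dvd.intro k rfl
  rw [h2]
  -- step 3: insert the level of distribution
  have h3 : ∀ d ∈ D w, ∀ e ∈ D w, lam w d * lam w e *
          ∑ n ∈ (Icc 1 X).filter (fun n => b * Nat.lcm d e ∣ n), g n
      ≤ Y / b * (lam w d * lam w e / (Nat.lcm d e : ℝ)) + E := by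
    intro d hd e he
    have hda := lam_abs w d hw hd
    have hea := lam_abs w e hw he
    rw [mem_D] at hd he
    have hl1 : 1 ≤ Nat.lcm d e := Nat.pos_of_ne_zero (Nat.lcm_ne_zero (by omega) (by omega))
    have hl2 : Nat.lcm d e ≤ w ^ 2 := by
      calc Nat.lcm d e ≤ d * e := Nat.le_of_dvd (Nat.mul_pos hd.1.1 he.1.1) (Nat.lcm_dvd_mul d e)
        _ ≤ w * w := Nat.mul_le_mul hd.1.2 he.1.2
        _ = w ^ 2 := by ring
    have h4 := hlev (Nat.lcm d e) hl1 hl2
    have h5 : |lam w d * lam w e| ≤ 1 := by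
      rw [abs_mul]
      nlinarith [abs_nonneg (lam w d), abs_nonneg (lam w e)]
    set s := ∑ n ∈ (Icc 1 X).filter (fun n => b * Nat.lcm d e ∣ n), g n
    have hl0 : (Nat.lcm d e : ℝ) ≠ 0 := by
      have : Nat.lcm d e ≠ 0 := by omega
      exact_mod_cast this
    have h6 : lam w d * lam w e * s = Y / b * (lam w d * lam w e / (Nat.lcm d e : ℝ))
        + lam w d * lam w e * (s - Y / (b * (Nat.lcm d e : ℝ))) := by
      field_simp
      ring
    rw [h6]
    have h7 : lam w d * lam w e * (s - Y / (b * (Nat.lcm d e : ℝ))) ≤ E := by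
      calc _ ≤ |lam w d * lam w e * (s - Y / (b * (Nat.lcm d e : ℝ)))| := le_abs_self _
        _ = |lam w d * lam w e| * |s - Y / (b * (Nat.lcm d e : ℝ))| := abs_mul _ _
        _ ≤ 1 * E := mul_le_mul h5 h4 (abs_nonneg _) (by norm_num)
        _ = E := one_mul E
    linarith
  have hcard : ((D w).card : ℝ) ≤ w := by
    have h4 : (D w).card ≤ (Icc 1 w).card := Finset.card_filter_le _ _
    rw [Nat.card_Icc] at h4
    exact_mod_cast (by omega : (D w).card ≤ w)
  calc ∑ d ∈ D w, ∑ e ∈ D w, lam w d * lam w e *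
          ∑ n ∈ (Icc 1 X).filter (fun n => b * Nat.lcm d e ∣ n), g n
      ≤ ∑ d ∈ D w, ∑ e ∈ D w, (Y / b * (lam w d * lam w e / (Nat.lcm d e : ℝ)) + E) :=
        Finset.sum_le_sum (fun d hd => Finset.sum_le_sum (fun e he => h3 d hd e he))
    _ = Y / b * ∑ d ∈ D w, ∑ e ∈ D w, lam w d * lam w e / (Nat.lcm d e : ℝ)
          + (D w).card * ((D w).card * E) := by
        simp only [Finset.sum_add_distrib, Finset.sum_const, nsmul_eq_mul]
        congr 1
        rw [Finset.mul_sum]
        apply Finset.sum_congr rfl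
        intro d _
        rw [Finset.mul_sum]
    _ ≤ Y / (b * Real.log w) + w ^ 2 * E := by
        rw [quad w hw]
        apply add_le_add
        · rw [div_mul_div_comm, mul_one]
          apply div_le_div_of_nonneg_left hY (by positivity)
          exact mul_le_mul_of_nonneg_left (log_le_Gs w (by omega)) hb0.le
        · have hc0 : (0 : ℝ) ≤ (D w).card := by positivity
          have hw0 : (0 : ℝ) ≤ w := by positivity
          calc ((D w).card : ℝ) * ((D w).card * E) = ((D w).card * (D w).card) * E := by ring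
            _ ≤ (w * w) * E := by
              apply mul_le_mul_of_nonneg_right _ hE
              exact mul_le_mul hcard hcard hc0 hw0
            _ = w ^ 2 * E := by ring

end Pool.Agent.Helper31.Lang
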